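import Pool.Agent.Y152.Pm.Polar

/-!
# Functions on a symmetric group killed by symmetrizers and antisymmetrizers
-/

namespace Pool.Agent.Y152.Pm

set_option linter.unusedSectionVars false

open Finset Equiv

variable {ι : Type*} [Fintype ι] [DecidableEq ι]

/-- The permutations supported on `S`. -/
def SymOn (S : Finset ι) : Finset (Perm ι) := univ.filter (fun τ => ∀ x, x ∉ S → τ x = x)

lemma mem_symOn {S : Finset ι} {τ : Perm ι} : τ ∈ SymOn S ↔ ∀ x, x ∉ S → τ x = x := by
  simp [SymOn]

lemma apply_mem {S : Finset ι} {τ : Perm ι} (h : τ ∈ SymOn S) {x : ι} (hx : x ∈ S) : τ x ∈ S := by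
  by_contra hn
  have h1 := mem_symOn.1 h _ hn
  have h2 := τ.injective h1
  rw [h2] at hn
  exact hn hx

lemma symOn_singleton (a : ι) : SymOn ({a} : Finset ι) = {1} := by
  ext τ
  rw [mem_singleton]
  constructor
  · intro h
    ext x
    by_cases hx : x ∈ ({a} : Finset ι)
    · have h1 := apply_mem h hx
      rw [mem_singleton] at hx h1
      rw [hx] at h1 ⊢
      rw [h1]; rfl
    · rw [mem_symOn.1 h x hx]; rfl
  · rintro rfl
    exact mem_symOn.2 fun x _ => rfl

variable {M : Type*} [AddCommGroup M] [Module ℚ M]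

/-- Sum over the permutations supported on `S ∪ {b}`. -/
lemma sum_insert_symOn {S : Finset ι} {b : ι} (hb : b ∉ S) (f : Perm ι → M) :
    ∑ τ ∈ SymOn (insert b S), f τ = ∑ τ ∈ SymOn S, f τ +
      ∑ a ∈ S, ∑ τ ∈ SymOn S, f (swap a b * τ) := by
  have h1 : ∑ τ ∈ SymOn (insert b S), f τ =
      ∑ p ∈ (insert b S) ×ˢ (SymOn S), f (swap p.1 b * p.2) := by
    symm
    refine sum_nbij' (fun p => swap p.1 b * p.2) (fun σ => (σ b, swap (σ b) b * σ)) ?_ ?_ ?_ ?_ ?_
    · rintro ⟨c, τ⟩ hp
      rw [mem_product] at hp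
      refine mem_symOn.2 fun x hx => ?_
      rw [mem_insert, not_or] at hx
      have h3 := mem_symOn.1 hp.2 x hx.2
      change swap c b (τ x) = x
      rw [h3]
      apply swap_apply_of_ne_of_ne
      · rintro rfl
        have := hp.1
        rw [mem_insert] at this
        exact this.elim hx.1 hx.2
      · exact hx.1
    · intro σ hσ
      rw [mem_product]
      refine ⟨apply_mem hσ (mem_insert_self _ _), mem_symOn.2 fun x hx => ?_⟩
      change swap (σ b) b (σ x) = x
      by_cases hxb : x = b
      · subst hxb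
        rw [swap_apply_left]
      · have h3 := mem_symOn.1 hσ x (by rw [mem_insert, not_or]; exact ⟨hxb, hx⟩)
        rw [h3]
        apply swap_apply_of_ne_of_ne _ hxb
        rintro h4
        have h5 := σ.injective (h3.trans h4)
        exact hxb h5
    · rintro ⟨c, τ⟩ hp
      rw [mem_product] at hp
      have h3 := mem_symOn.1 hp.2 b hb
      have h4 : (swap c b * τ) b = c := by
        change swap c b (τ b) = c
        rw [h3, swap_apply_right]
      ext1
      · exact h4
      · dsimp only
        rw [h4, ← mul_assoc, swap_mul_self, one_mul]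
    · intro σ _
      dsimp only
      rw [← mul_assoc, swap_mul_self, one_mul]
    · rintro ⟨c, τ⟩ _
      rfl
  rw [h1, sum_product, sum_insert hb]
  congr 1
  simp only [swap_self]
  exact sum_congr rfl fun τ _ => by
    change f (1 * τ) = _
    rw [one_mul]

/-- Conjugation. -/
lemma sum_conj (S : Finset ι) (g : Perm ι) (f : Perm ι → M) :
    ∑ τ ∈ SymOn S, f τ = ∑ τ ∈ SymOn (S.map g⁻¹.toEmbedding), f (g * τ * g⁻¹) := by
  refine sum_nbij' (fun τ => g⁻¹ * τ * g) (fun τ => g * τ * g⁻¹) ?_ ?_ ?_ ?_ ?_
  · intro τ hτ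
    refine mem_symOn.2 fun x hx => ?_
    have h1 : g x ∉ S := by
      intro h2
      apply hx
      rw [mem_map]
      exact ⟨g x, h2, by simp⟩
    change g⁻¹ (τ (g x)) = x
    rw [mem_symOn.1 hτ _ h1]
    exact g.symm_apply_apply x
  · intro τ hτ
    refine mem_symOn.2 fun x hx => ?_
    have h1 : g⁻¹ x ∉ S.map g⁻¹.toEmbedding := by
      intro h2
      rw [mem_map] at h2
      obtain ⟨y, hy, h3⟩ := h2
      have h4 : y = x := g⁻¹.injective h3
      exact hx (h4 ▸ hy)
    change g (τ (g⁻¹ x)) = x
    rw [mem_symOn.1 hτ _ h1]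
    exact g.apply_symm_apply x
  · intro τ _
    group
  · intro τ _
    group
  · intro τ _
    congr 1
    group

/-- `h` is killed by the symmetrizers on `k`-subsets of `T`. -/
def KS (h : Perm ι → M) (k : ℕ) (T : Finset ι) : Prop :=
  ∀ S ⊆ T, S.card = k → ∀ x, ∑ τ ∈ SymOn S, h (x * τ) = 0

/-- `h` is killed by the antisymmetrizers on `l`-subsets of `T`. -/
def KA (h : Perm ι → M) (l : ℕ) (T : Finset ι) : Prop :=
  ∀ S ⊆ T, S.card = l → ∀ x, ∑ τ ∈ SymOn S, (Perm.sign τ : ℤ) • h (x * τ) = 0

lemma comm_of_disjoint {S S' : Finset ι} (hd : Disjoint S S') {τ ρ : Perm ι} (hτ : τ ∈ SymOn S)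
    (hρ : ρ ∈ SymOn S') : τ * ρ = ρ * τ := by
  ext x
  change τ (ρ x) = ρ (τ x)
  by_cases h1 : x ∈ S
  · have h2 : x ∉ S' := disjoint_left.1 hd h1
    have h3 := apply_mem hτ h1
    rw [mem_symOn.1 hρ x h2, mem_symOn.1 hρ _ (disjoint_left.1 hd h3)]
  · rw [mem_symOn.1 hτ x h1]
    by_cases h2 : x ∈ S'
    · have h3 := apply_mem hρ h2
      exact mem_symOn.1 hτ _ (disjoint_right.1 hd h3)
    · rw [mem_symOn.1 hρ x h2, mem_symOn.1 hτ x h1]

lemma map_subset_of_mem {T S B : Finset ι} (hS : S ⊆ T) (hB : B ⊆ T) {τ : Perm ι}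
    (hτ : τ ∈ SymOn S) : B.map τ⁻¹.toEmbedding ⊆ T := by
  intro x hx
  rw [mem_map] at hx
  obtain ⟨y, hy, rfl⟩ := hx
  have h1 : τ⁻¹ ∈ SymOn S := mem_symOn.2 fun z hz => by
    have := mem_symOn.1 hτ z hz
    calc τ⁻¹ z = τ⁻¹ (τ z) := by rw [this]
      _ = z := τ.symm_apply_apply z
  by_cases h2 : y ∈ S
  · exact hS (apply_mem h1 h2)
  · change τ⁻¹ y ∈ T
    rw [mem_symOn.1 h1 y h2]
    exact hB hy

/-- A function killed by all symmetrizers on `k + 1` letters and all antisymmetrizers on `l + 1`
letters of a set of at least `k l + 1` letters is zero. -/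
theorem eq_zero_of_killed (k l : ℕ) : ∀ (T : Finset ι) (h : Perm ι → M), k * l + 1 ≤ T.card →
    KS h (k + 1) T → KA h (l + 1) T → ∀ x, h x = 0 := by
  induction k generalizing l with
  | zero =>
    intro T h hT hS _ x
    obtain ⟨a, ha⟩ : T.Nonempty := card_pos.1 (by omega)
    have h1 := hS {a} (singleton_subset_iff.2 ha) (by simp) x
    rwa [symOn_singleton, sum_singleton, mul_one] at h1
  | succ k ihk =>
    induction l with
    | zero =>
      intro T h hT _ hA x
      obtain ⟨a, ha⟩ : T.Nonempty := card_pos.1 (by omega)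
      have h1 := hA {a} (singleton_subset_iff.2 ha) (by simp) x
      rwa [symOn_singleton, sum_singleton, mul_one, Perm.sign_one, Units.val_one, one_smul] at h1
    | succ l ihl =>
      intro T h hT hS hA
      refine ihk (l + 1) T h ?_ ?_ hA
      · refine le_trans ?_ hT
        rw [add_mul]; omega
      intro S hST hSc
      set w : Perm ι → M := fun x => ∑ τ ∈ SymOn S, h (x * τ) with hw
      have hT' : (k + 1) * l + 1 ≤ (T \ S).card := by
        rw [card_sdiff_of_subset hST, hSc]
        have : (k + 1) * (l + 1) = (k + 1) * l + (k + 1) := by ring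
        omega
      refine ihl (T \ S) w hT' ?_ ?_
      · intro S' hS' hc x
        have hd : Disjoint S S' := (disjoint_of_subset_left hS' sdiff_disjoint).symm
        simp only [hw]
        rw [sum_comm]
        refine sum_eq_zero fun τ hτ => ?_
        have h1 := hS S' (hS'.trans sdiff_subset) hc (x * τ)
        rw [← h1]
        refine sum_congr rfl fun ρ hρ => ?_
        rw [mul_assoc, mul_assoc, comm_of_disjoint hd hτ hρ]
      · intro S' hS' hc x
        have hd : Disjoint S S' := (disjoint_of_subset_left hS' sdiff_disjoint).symm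
        have hS'T : S' ⊆ T := hS'.trans sdiff_subset
        set u : Perm ι → M := fun x => ∑ ρ ∈ SymOn S', (Perm.sign ρ : ℤ) • w (x * ρ) with hu
        -- the first relation
        have r1 : ∀ a ∈ S, ∀ x, u x = ∑ b ∈ S', u (x * swap a b) := by
          intro a ha x
          have ha' : a ∉ S' := disjoint_left.1 hd ha
          have h2 : ∑ ρ ∈ SymOn (insert a S'), (Perm.sign ρ : ℤ) • w (x * ρ) = 0 := by
            simp only [hw, smul_sum]
            rw [sum_comm]
            refine sum_eq_zero fun τ hτ => ?_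
            rw [sum_conj (insert a S') τ]
            have h3 := hA ((insert a S').map τ⁻¹.toEmbedding)
              (map_subset_of_mem hST (insert_subset (hST ha) hS'T) hτ)
              (by rw [card_map, card_insert_of_notMem ha', hc]) (x * τ)
            rw [← h3]
            refine sum_congr rfl fun ρ _ => ?_
            have h4 : Perm.sign (τ * ρ * τ⁻¹) = Perm.sign ρ := by
              rw [Perm.sign_mul, Perm.sign_mul, Perm.sign_inv, mul_comm, ← mul_assoc,
                Int.units_mul_self, one_mul]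
            rw [h4]
            congr 2
            group
          rw [sum_insert_symOn ha'] at h2
          have h5 : ∑ b ∈ S', ∑ τ ∈ SymOn S', ((Perm.sign (swap b a * τ) : ℤˣ) : ℤ) •
              w (x * (swap b a * τ)) = -∑ b ∈ S', u (x * swap a b) := by
            rw [← sum_neg_distrib]
            refine sum_congr rfl fun b hb => ?_
            have hba : b ≠ a := fun h6 => ha' (h6 ▸ hb)
            rw [hu]
            simp only
            rw [← sum_neg_distrib]
            refine sum_congr rfl fun τ _ => ?_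
            rw [Perm.sign_mul, Perm.sign_swap hba, swap_comm b a, ← mul_assoc, neg_mul, one_mul,
              Units.val_neg, neg_smul]
          rw [h5] at h2
          exact add_neg_eq_zero.1 h2
        -- the second relation
        have r2 : ∀ b ∈ S', ∀ x, ∑ a ∈ S, u (x * swap a b) = -u x := by
          intro b hb x
          have hb' : b ∉ S := disjoint_right.1 hd hb
          set u' : Perm ι → M := fun x => ∑ ρ ∈ SymOn S', (Perm.sign ρ : ℤ) • h (x * ρ) with hu'
          have h2 : ∀ x, u x = ∑ τ ∈ SymOn S, u' (x * τ) := by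
            intro x
            simp only [hu, hu', hw, smul_sum]
            rw [sum_comm]
            refine sum_congr rfl fun τ hτ => sum_congr rfl fun ρ hρ => ?_
            rw [mul_assoc, mul_assoc, comm_of_disjoint hd hτ hρ]
          have h3 : ∑ τ ∈ SymOn (insert b S), u' (x * τ) = 0 := by
            simp only [hu']
            rw [sum_comm]
            refine sum_eq_zero fun ρ hρ => ?_
            rw [← smul_sum, sum_conj (insert b S) ρ]
            have h4 := hS ((insert b S).map ρ⁻¹.toEmbedding)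
              (map_subset_of_mem hS'T (insert_subset (hS'T hb) hST) hρ)
              (by rw [card_map, card_insert_of_notMem hb', hSc]) (x * ρ)
            have h5 : ∑ τ ∈ SymOn ((insert b S).map ρ⁻¹.toEmbedding),
                h (x * (ρ * τ * ρ⁻¹) * ρ) = 0 := by
              rw [← h4]
              refine sum_congr rfl fun τ _ => ?_
              congr 1
              group
            rw [h5, smul_zero]
          rw [sum_insert_symOn hb', ← h2] at h3
          have h4 : ∑ a ∈ S, ∑ τ ∈ SymOn S, u' (x * (swap a b * τ)) =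
              ∑ a ∈ S, u (x * swap a b) := by
            refine sum_congr rfl fun a _ => ?_
            rw [h2]
            refine sum_congr rfl fun τ _ => ?_
            rw [mul_assoc]
          rw [h4] at h3
          exact (neg_eq_of_add_eq_zero_right h3).symm
        have h2 : ((k + 1 : ℕ) : ℚ) • u x = -(((l + 1 : ℕ) : ℚ) • u x) := by
          have h3 : ∑ a ∈ S, u x = ∑ b ∈ S', ∑ a ∈ S, u (x * swap a b) :=
            (sum_congr rfl fun a ha => r1 a ha x).trans sum_comm
          have h4 : ∑ b ∈ S', ∑ a ∈ S, u (x * swap a b) = ∑ b ∈ S', -u x :=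
            sum_congr rfl fun b hb => r2 b hb x
          rw [h4, sum_const, sum_const, hSc, hc, ← Nat.cast_smul_eq_nsmul ℚ,
            ← Nat.cast_smul_eq_nsmul ℚ, smul_neg] at h3
          exact h3
        have h3 : (((k + 1 : ℕ) : ℚ) + ((l + 1 : ℕ) : ℚ)) • u x = 0 := by
          rw [add_smul, h2, neg_add_cancel]
        have h4 : (((k + 1 : ℕ) : ℚ) + ((l + 1 : ℕ) : ℚ)) ≠ 0 := by positivity
        exact (smul_eq_zero.1 h3).resolve_left h4

section det

variable {R : Type*} [CommRing R] [Algebra ℚ R]

/-- The monomials of the expansion of a determinant. -/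
def mon (b : ι → ι → R) (σ : Perm ι) : R := ∏ i, b i (σ i)

/-- If the permanents of the submatrices with rows in the `(k + 1)`-subsets of `T` of `b` and `c`
vanish, then the determinant of the matrix `(b_ij c_ij)` vanishes if `T` has at least `k ^ 2 + 1`
elements. -/
theorem det_mul_zero {b c : ι → ι → R} {k : ℕ} {T : Finset ι} (hk : k * k + 1 ≤ T.card)
    (hb : ∀ S ⊆ T, ∀ (σ : Perm ι), S.card = k + 1 → ∑ τ ∈ SymOn S, mon b (σ * τ) = 0)
    (hc : ∀ S ⊆ T, ∀ (σ : Perm ι), S.card = k + 1 → ∑ τ ∈ SymOn S, mon c (σ * τ) = 0) :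
    ∑ σ : Perm ι, (Perm.sign σ : ℤ) • (mon b σ * mon c σ) = 0 := by
  classical
  let h : Perm ι → R := fun ρ => ∑ σ : Perm ι, (Perm.sign σ : ℤ) • (mon b (σ * ρ) * mon c σ)
  let h' : Perm ι → R := fun ρ => if ρ ∈ SymOn T then h ρ else 0
  have hmul : ∀ {S : Finset ι}, S ⊆ T → ∀ {τ : Perm ι}, τ ∈ SymOn S → ∀ x : Perm ι,
      (x * τ ∈ SymOn T ↔ x ∈ SymOn T) := by
    intro S hST τ hτ x
    have h1 : ∀ z, z ∉ T → τ z = z := fun z hz => mem_symOn.1 hτ z fun h2 => hz (hST h2)
    constructor
    · intro h2
      refine mem_symOn.2 fun z hz => ?_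
      have h3 := mem_symOn.1 h2 z hz
      change x (τ z) = z at h3
      rwa [h1 z hz] at h3
    · intro h2
      refine mem_symOn.2 fun z hz => ?_
      change x (τ z) = z
      rw [h1 z hz, mem_symOn.1 h2 z hz]
  have h1 := eq_zero_of_killed k k T h' hk ?_ ?_ 1
  · have h2 : (1 : Perm ι) ∈ SymOn T := mem_symOn.2 fun z _ => rfl
    simpa [h', h, h2] using h1
  · intro S hST hS x
    by_cases hx : x ∈ SymOn T
    · have h2 : ∀ τ ∈ SymOn S, h' (x * τ) = h (x * τ) := fun τ hτ =>
        if_pos ((hmul hST hτ x).2 hx)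
      rw [sum_congr rfl h2]
      simp only [h]
      rw [sum_comm]
      refine sum_eq_zero fun σ _ => ?_
      rw [← smul_sum, ← sum_mul]
      have h2 := hb S hST (σ * x) hS
      simp only [mul_assoc] at h2 ⊢
      rw [h2, zero_mul, smul_zero]
    · refine sum_eq_zero fun τ hτ => ?_
      exact if_neg fun h2 => hx ((hmul hST hτ x).1 h2)
  · intro S hST hS x
    by_cases hx : x ∈ SymOn T
    · have h2 : ∀ τ ∈ SymOn S, (Perm.sign τ : ℤ) • h' (x * τ) =
          (Perm.sign τ : ℤ) • h (x * τ) := fun τ hτ => by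
        rw [show h' (x * τ) = h (x * τ) from if_pos ((hmul hST hτ x).2 hx)]
      rw [sum_congr rfl h2]
      simp only [h, smul_sum]
      have h2 : ∀ τ ∈ SymOn S, ∑ σ : Perm ι, (Perm.sign τ : ℤ) • (Perm.sign σ : ℤ) •
          (mon b (σ * (x * τ)) * mon c σ) =
          ∑ σ : Perm ι, (Perm.sign σ : ℤ) • (mon b (σ * x) * mon c (σ * (x * τ⁻¹ * x⁻¹))) := by
        intro τ _
        refine Fintype.sum_equiv (Equiv.mulRight (x * τ * x⁻¹)) _ _ fun σ => ?_
        rw [Equiv.coe_mulRight]
        have e1 : Perm.sign (σ * (x * τ * x⁻¹)) = Perm.sign τ * Perm.sign σ := by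
          simp only [Perm.sign_mul, Perm.sign_inv]
          rw [mul_comm (Perm.sign x) (Perm.sign τ), mul_assoc (Perm.sign τ), Int.units_mul_self,
            mul_one, mul_comm]
        have e2 : σ * (x * τ * x⁻¹) * x = σ * (x * τ) := by group
        have e3 : σ * (x * τ * x⁻¹) * (x * τ⁻¹ * x⁻¹) = σ := by group
        rw [e1, e2, e3, Units.val_mul, mul_smul]
      rw [sum_congr rfl h2, sum_comm]
      refine sum_eq_zero fun σ _ => ?_
      rw [← smul_sum, ← mul_sum]
      have h3 : ∑ τ ∈ SymOn S, mon c (σ * (x * τ⁻¹ * x⁻¹)) = 0 := by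
        have hxT : S.map x.toEmbedding ⊆ T := by
          intro y hy
          rw [mem_map] at hy
          obtain ⟨z, hz, rfl⟩ := hy
          exact apply_mem hx (hST hz)
        have h4 := hc (S.map x.toEmbedding) hxT σ (by rw [card_map, hS])
        rw [sum_conj _ x] at h4
        have h5 : (S.map x.toEmbedding).map x⁻¹.toEmbedding = S := by
          ext y
          simp only [mem_map, exists_exists_and_eq_and]
          constructor
          · rintro ⟨z, hz, rfl⟩
            change x⁻¹ (x z) ∈ S
            have h6 : x⁻¹ (x z) = z := x.symm_apply_apply z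
            rw [h6]
            exact hz
          · intro hy
            exact ⟨y, hy, x.symm_apply_apply y⟩
        rw [h5] at h4
        rw [← h4]
        refine sum_nbij' (fun τ => τ⁻¹) (fun τ => τ⁻¹) ?_ ?_ ?_ ?_ ?_
        · intro τ hτ
          exact mem_symOn.2 fun z hz => by
            have := mem_symOn.1 hτ z hz
            calc τ⁻¹ z = τ⁻¹ (τ z) := by rw [this]
              _ = z := τ.symm_apply_apply z
        · intro τ hτ
          exact mem_symOn.2 fun z hz => by
            have := mem_symOn.1 hτ z hz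
            calc τ⁻¹ z = τ⁻¹ (τ z) := by rw [this]
              _ = z := τ.symm_apply_apply z
        · intro τ _
          exact inv_inv τ
        · intro τ _
          exact inv_inv τ
        · intro τ _
          rfl
      rw [h3, mul_zero, smul_zero]
    · refine sum_eq_zero fun τ hτ => ?_
      rw [show h' (x * τ) = 0 from if_neg fun h2 => hx ((hmul hST hτ x).1 h2), smul_zero]

lemma mon_mul (g : ι → ι → R) {S : Finset ι} (σ : Perm ι) {τ : Perm ι} (hτ : τ ∈ SymOn S) :
    mon g (σ * τ) = (∏ i ∈ S, g i (σ (τ i))) * ∏ i ∈ Sᶜ, g i (σ i) := by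
  rw [mon, ← prod_mul_prod_compl S]
  congr 1
  refine prod_congr rfl fun i hi => ?_
  change g i (σ (τ i)) = _
  rw [mem_symOn.1 hτ i (mem_compl.1 hi)]

/-- The determinant of the matrix `(b_ij ^ 2 + u_i v_j)` vanishes if the permanents of size `k + 1`
of `b` vanish and its size is at least `k ^ 2 + 2`. -/
theorem det_sq_add_zero {b : ι → ι → R} {u v : ι → R} {k : ℕ}
    (hk : k * k + 2 ≤ Fintype.card ι)
    (hb : ∀ (S : Finset ι) (σ : Perm ι), S.card = k + 1 →
      ∑ τ ∈ SymOn S, ∏ i ∈ S, b i (σ (τ i)) = 0) :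
    ∑ σ : Perm ι, (Perm.sign σ : ℤ) • ∏ i, (b i (σ i) * b i (σ i) + u i * v (σ i)) = 0 := by
  classical
  have h1 : ∀ σ : Perm ι, ∏ i, (b i (σ i) * b i (σ i) + u i * v (σ i)) =
      ∑ t : Finset ι, (∏ i ∈ t, (b i (σ i) * b i (σ i))) *
        ∏ i ∈ tᶜ, (u i * v (σ i)) := by
    intro σ
    rw [prod_add]
    refine sum_congr powerset_univ fun t _ => ?_
    rw [compl_eq_univ_sdiff]
  simp only [h1, smul_sum]
  rw [sum_comm]
  refine sum_eq_zero fun t _ => ?_
  by_cases h2 : 1 < tᶜ.card
  · obtain ⟨c, hc, d, hd, hcd⟩ := one_lt_card.1 h2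
    have h3 : ∑ σ : Perm ι, (Perm.sign σ : ℤ) • ((∏ i ∈ t, (b i (σ i) * b i (σ i))) *
        ∏ i ∈ tᶜ, (u i * v (σ i))) = ∑ σ : Perm ι, -((Perm.sign σ : ℤ) •
          ((∏ i ∈ t, (b i (σ i) * b i (σ i))) * ∏ i ∈ tᶜ, (u i * v (σ i)))) := by
      refine Fintype.sum_equiv (Equiv.mulRight (swap c d)) _ _ fun σ => ?_
      rw [Equiv.coe_mulRight, Perm.sign_mul, Perm.sign_swap hcd, mul_neg, mul_one,
        Units.val_neg, neg_smul, neg_neg]
      congr 2
      · refine prod_congr rfl fun i hi => ?_
        have h4 : (σ * swap c d) i = σ i := by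
          change σ (swap c d i) = σ i
          rw [swap_apply_of_ne_of_ne]
          · rintro rfl
            exact (mem_compl.1 hc) hi
          · rintro rfl
            exact (mem_compl.1 hd) hi
        rw [h4]
      · rw [prod_mul_distrib, prod_mul_distrib]
        congr 1
        refine prod_nbij' (swap c d) (swap c d) ?_ ?_ ?_ ?_ ?_
        · intro i hi
          by_cases h5 : i = c
          · rw [h5, swap_apply_left]; exact hd
          · by_cases h6 : i = d
            · rw [h6, swap_apply_right]; exact hc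
            · rw [swap_apply_of_ne_of_ne h5 h6]; exact hi
        · intro i hi
          by_cases h5 : i = c
          · rw [h5, swap_apply_left]; exact hd
          · by_cases h6 : i = d
            · rw [h6, swap_apply_right]; exact hc
            · rw [swap_apply_of_ne_of_ne h5 h6]; exact hi
        · intro i _
          exact swap_apply_self c d i
        · intro i _
          exact swap_apply_self c d i
        · intro i _
          change v (σ i) = v (σ (swap c d (swap c d i)))
          rw [swap_apply_self]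
    rw [sum_neg_distrib] at h3
    have h4 : (2 : ℚ) • ∑ σ : Perm ι, (Perm.sign σ : ℤ) • ((∏ i ∈ t, (b i (σ i) * b i (σ i))) *
        ∏ i ∈ tᶜ, (u i * v (σ i))) = 0 := by
      rw [two_smul]
      nth_rw 2 [h3]
      exact add_neg_cancel _
    exact (smul_eq_zero.1 h4).resolve_left (by norm_num)
  · have h3 : tᶜ.card ≤ 1 := not_lt.1 h2
    have h4 : k * k + 1 ≤ t.card := by
      have := card_add_card_compl t
      omega
    set b' : ι → ι → R := fun i j => if i ∈ t then b i j else v j with hb'
    set c' : ι → ι → R := fun i j => if i ∈ t then b i j else u i with hc'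
    have h5 : ∀ σ : Perm ι, (∏ i ∈ t, (b i (σ i) * b i (σ i))) * ∏ i ∈ tᶜ, (u i * v (σ i)) =
        mon b' σ * mon c' σ := by
      intro σ
      rw [mon, mon, ← prod_mul_distrib, ← prod_mul_prod_compl t]
      congr 1
      · refine prod_congr rfl fun i hi => ?_
        simp only [hb', hc', if_pos hi]
      · refine prod_congr rfl fun i hi => ?_
        simp only [hb', hc', if_neg (mem_compl.1 hi)]
        rw [mul_comm]
    simp only [h5]
    -- the permanents with rows in `t`
    have key : ∀ (g : ι → ι → R), (∀ i ∈ t, g i = b i) → ∀ S ⊆ t, ∀ (σ : Perm ι),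
        S.card = k + 1 → ∑ τ ∈ SymOn S, mon g (σ * τ) = 0 := by
      intro g hg S hSt σ hS
      rw [sum_congr rfl fun τ hτ => mon_mul g σ hτ, ← sum_mul]
      have h6 : ∑ τ ∈ SymOn S, ∏ i ∈ S, g i (σ (τ i)) = 0 := by
        rw [← hb S σ hS]
        refine sum_congr rfl fun τ _ => prod_congr rfl fun i hi => ?_
        rw [hg i (hSt hi)]
      rw [h6, zero_mul]
    exact det_mul_zero h4 (key b' (fun i hi => by funext j; simp only [hb', if_pos hi]))
      (key c' (fun i hi => by funext j; simp only [hc', if_pos hi]))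

/-- The permanents of submatrices of `(b (x_i) (y_j))` vanish if products of `m` values of `b` with
one and the same first entry vanish. -/
lemma per_zero {X Y : Type*} [AddCommGroup X] {b : X → Y → R} {m : ℕ}
    (hadd : ∀ x x' y, b (x + x') y = b x y + b x' y)
    (h : ∀ (x : X) (y : Fin m → Y), ∏ j, b x (y j) = 0) (x : ι → X) (y : ι → Y)
    (S : Finset ι) (σ : Perm ι) (hS : S.card = m) :
    ∑ τ ∈ SymOn S, ∏ i ∈ S, b (x i) (y (σ (τ i))) = 0 := by
  -- it suffices to sum over the inverses
  have h0 : ∑ τ ∈ SymOn S, ∏ i ∈ S, b (x i) (y (σ (τ i))) =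
      ∑ τ ∈ SymOn S, ∏ i ∈ S, b (x (τ i)) (y (σ i)) := by
    have hinv : ∀ {τ : Perm ι}, τ ∈ SymOn S → τ⁻¹ ∈ SymOn S := by
      intro τ hτ
      exact mem_symOn.2 fun z hz => by
        have := mem_symOn.1 hτ z hz
        calc τ⁻¹ z = τ⁻¹ (τ z) := by rw [this]
          _ = z := τ.symm_apply_apply z
    refine sum_nbij' (fun τ => τ⁻¹) (fun τ => τ⁻¹) (fun τ hτ => hinv hτ)
      (fun τ hτ => hinv hτ) (fun τ _ => inv_inv τ) (fun τ _ => inv_inv τ) ?_
    intro τ hτ
    refine (prod_nbij' (fun i => τ⁻¹ i) (fun i => τ i) (fun i hi => apply_mem (hinv hτ) hi)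
      (fun i hi => apply_mem hτ hi) (fun i _ => τ.apply_symm_apply i)
      (fun i _ => τ.symm_apply_apply i) fun i _ => ?_).symm
    have h6 : τ (τ⁻¹ i) = i := τ.apply_symm_apply i
    rw [h6]
  rw [h0]
  let β : {i // i ∈ S} → (X →+ R) := fun j =>
    AddMonoidHom.mk' (fun x => b x (y (σ j))) (fun x x' => hadd x x' _)
  have e : Fin m ≃ {i // i ∈ S} := (Fintype.equivFinOfCardEq (by simp [hS])).symm
  have h3 : ∀ z, ∏ j, β j z = 0 := by
    intro z
    have h4 := h z (fun j => y (σ (e j)))
    rw [← h4]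
    exact (Fintype.prod_equiv e _ _ fun j => rfl).symm
  have h4 := polar β h3 (fun j => x j)
  rw [← h4]
  symm
  refine Finset.sum_bij (fun τ _ => Perm.ofSubtype τ) ?_ ?_ ?_ ?_
  · intro τ _
    exact mem_symOn.2 fun z hz => Perm.ofSubtype_apply_of_not_mem τ hz
  · intro τ _ ρ _ h5
    exact Perm.ofSubtype_injective h5
  · intro ρ hρ
    have h6 : ∀ z, z ∈ S ↔ ρ z ∈ S := by
      intro z
      refine ⟨fun hz => apply_mem hρ hz, fun hz => ?_⟩
      by_contra hn
      rw [mem_symOn.1 hρ z hn] at hz
      exact hn hz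
    refine ⟨ρ.subtypePerm (fun z => (h6 z).symm), mem_univ _, ?_⟩
    refine Perm.ofSubtype_subtypePerm (fun z => (h6 z).symm) fun z hz => ?_
    by_contra hn
    exact hz (mem_symOn.1 hρ z hn)
  · intro τ _
    rw [← prod_coe_sort S]
    refine prod_congr rfl fun j _ => ?_
    change b (x (τ j)) (y (σ j)) = b (x (Perm.ofSubtype τ (j : ι))) (y (σ j))
    rw [Perm.ofSubtype_apply_coe]

end det

end Pool.Agent.Y152.Pm
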