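import Mathlib

/-!
# Polarization of products of additive maps
-/

namespace Pool.Agent.Y152.Pm

open Finset Equiv

variable {ι : Type*} [Fintype ι] [DecidableEq ι]

lemma sum_sets (f : ι → ι) : ∑ I ∈ (univ : Finset (Finset ι)).filter (fun I => ∀ j, f j ∈ I),
    (-1 : ℤ) ^ I.card = if Function.Bijective f then (-1) ^ Fintype.card ι else 0 := by
  by_cases hf : Function.Surjective f
  · have h1 : (univ : Finset (Finset ι)).filter (fun I => ∀ j, f j ∈ I) = {univ} := by
      ext I
      simp only [mem_filter, mem_univ, true_and, mem_singleton]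
      constructor
      · intro h
        ext c
        obtain ⟨j, rfl⟩ := hf c
        simp [h j]
      · rintro rfl j
        exact mem_univ _
    have h2 : Function.Bijective f := ⟨Finite.injective_iff_surjective.2 hf, hf⟩
    rw [h1, sum_singleton, if_pos h2, card_univ]
  · have h2 : ¬ Function.Bijective f := fun h => hf h.2
    rw [if_neg h2]
    unfold Function.Surjective at hf
    push Not at hf
    obtain ⟨c, hc⟩ := hf
    refine Finset.sum_involution (fun I _ => if c ∈ I then I.erase c else insert c I) ?_ ?_ ?_ ?_
    · intro I _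
      split_ifs with h
      · have h3 := card_erase_add_one h
        rw [← h3, pow_succ]; ring
      · rw [card_insert_of_notMem h, pow_succ]; ring
    · intro I _ _ h4

      split_ifs at h4 with h
      · exact (notMem_erase c I) (by rw [h4]; exact h)
      · exact h (by rw [← h4]; exact mem_insert_self _ _)
    · intro I hI
      simp only [mem_filter, mem_univ, true_and] at hI ⊢
      intro j
      split_ifs with h
      · exact mem_erase.2 ⟨hc j, hI j⟩
      · exact mem_insert_of_mem (hI j)
    · intro I _
      by_cases h : c ∈ I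
      · rw [if_pos h, if_neg (notMem_erase c I), insert_erase h]
      · rw [if_neg h, if_pos (mem_insert_self c I), erase_insert h]

/-- If a product of additive maps vanishes, so does its polarization. -/
lemma polar {R : Type*} [CommRing R] {X : Type*} [AddCommGroup X] (β : ι → X →+ R)
    (h : ∀ x, ∏ j, β j x = 0) (x : ι → X) :
    ∑ σ : Perm ι, ∏ j, β j (x (σ j)) = 0 := by
  have h1 : ∑ I : Finset ι, ((-1 : ℤ) ^ I.card) • ∏ j, β j (∑ i ∈ I, x i) = 0 :=
    sum_eq_zero fun I _ => by rw [h, smul_zero]
  have h2 : ∀ I : Finset ι, ∏ j, β j (∑ i ∈ I, x i) =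
      ∑ f : ι → ι, if (∀ j, f j ∈ I) then ∏ j, β j (x (f j)) else 0 := by
    intro I
    simp only [map_sum]
    rw [prod_univ_sum, ← sum_filter]
    refine sum_congr ?_ fun _ _ => rfl
    ext f
    simp [Fintype.mem_piFinset]
  simp only [h2, smul_sum, smul_ite, smul_zero] at h1
  rw [sum_comm] at h1
  have h3 : ∀ f : ι → ι, ∑ I : Finset ι, (if (∀ j, f j ∈ I) then
      ((-1 : ℤ) ^ I.card) • ∏ j, β j (x (f j)) else 0) =
      if Function.Bijective f then ((-1 : ℤ) ^ Fintype.card ι) • ∏ j, β j (x (f j)) else 0 := by
    intro f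
    rw [← sum_filter, ← sum_smul, sum_sets, ite_smul, zero_smul]
  simp only [h3] at h1
  rw [← sum_filter, ← smul_sum] at h1
  have h4 : ∑ f ∈ (univ : Finset (ι → ι)).filter Function.Bijective, ∏ j, β j (x (f j)) =
      ∑ σ : Perm ι, ∏ j, β j (x (σ j)) := by
    symm
    refine Finset.sum_bij (fun σ _ => (σ : ι → ι)) ?_ ?_ ?_ ?_
    · intro σ _
      simp only [mem_filter, mem_univ, true_and]
      exact σ.bijective
    · intro σ _ τ _ h5
      exact Equiv.coe_fn_injective h5
    · intro f hf
      simp only [mem_filter, mem_univ, true_and] at hf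
      exact ⟨Equiv.ofBijective f hf, mem_univ _, rfl⟩
    · intro σ _
      rfl
  rw [h4] at h1
  have h5 := congrArg (fun t => ((-1 : ℤ) ^ Fintype.card ι) • t) h1
  simp only [smul_smul, ← mul_pow, smul_zero] at h5
  simpa using h5

end Pool.Agent.Y152.Pm
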